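import Pool.Agent.Y377.IL.Stm

/-!
Derivations of subrings of a field of characteristic zero extend to the field (task EXT of the
project IL).
-/

set_option autoImplicit false

namespace Pool.Agent.Y151.IL

open Pool.Agent.Y377.IL

/-- extensions of fields of characteristic zero are formally smooth -/
theorem formallySmooth_field {F K : Type} [Field F] [CharZero F] [Field K] [Algebra F K] :
    Algebra.FormallySmooth F K := by
  obtain ⟨ι, v, hv⟩ := exists_isTranscendenceBasis' F K
  have halg : Algebra.IsAlgebraic (IntermediateField.adjoin F (Set.range v)) K :=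
    hv.isAlgebraic_field
  have hsep : Algebra.IsSeparable (IntermediateField.adjoin F (Set.range v)) K := inferInstance
  exact .of_algebraicIndependent_of_isSeparable hv.1

theorem t_EXT : Pool.Agent.Y377.IL.S_EXT := by
  intro K _ _ B d
  have hch : CharZero K := charZero_of_injective_algebraMap (algebraMap ℂ K).injective
  have hchB : CharZero B := charZero_of_injective_algebraMap (R := ℂ)
    (algebraMap ℂ B).injective
  let _ : Algebra (FractionRing B) K := FractionRing.liftAlgebra B K
  have hst : IsScalarTower B (FractionRing B) K := inferInstance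
  have hchF : CharZero (FractionRing B) :=
    charZero_of_injective_algebraMap (IsFractionRing.injective B (FractionRing B))
  have h1 : Algebra.FormallySmooth (FractionRing B) K := formallySmooth_field
  have h2 : Algebra.FormallySmooth B (FractionRing B) :=
    .of_isLocalization (nonZeroDivisors B)
  have h3 : Algebra.FormallySmooth B K := .comp B (FractionRing B) K
  have hadd : ∀ a b : B, algebraMap B K (d (a + b)) = algebraMap B K (d a) + algebraMap B K (d b) := by
    intro a b
    rw [map_add, map_add]
  have hmul : ∀ a b : B, algebraMap B K (d (a * b)) =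
      algebraMap B K a * algebraMap B K (d b) + algebraMap B K b * algebraMap B K (d a) := by
    intro a b
    rw [d.leibniz, map_add, smul_eq_mul, smul_eq_mul, map_mul, map_mul]
  let φ : B →+* TrivSqZeroExt K K :=
    dualHom (algebraMap B K) (fun b => algebraMap B K (d b)) hadd hmul
  let _ : Algebra B (TrivSqZeroExt K K) := φ.toAlgebra
  let g : TrivSqZeroExt K K →ₐ[B] K :=
    { (TrivSqZeroExt.fstHom K K K).toRingHom with
      commutes' := fun b => by
        have h := fst_dualHom (algebraMap B K) (fun b => algebraMap B K (d b)) hadd hmul b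
        exact h }
  have hg : ∀ x, g x = x.fst := fun x => rfl
  have hsurj : Function.Surjective g := fun x => ⟨TrivSqZeroExt.inl x, by rw [hg]; simp⟩
  have hnil : IsNilpotent (RingHom.ker (g : TrivSqZeroExt K K →+* K)) := by
    have h4 : RingHom.ker (g : TrivSqZeroExt K K →+* K) *
        RingHom.ker (g : TrivSqZeroExt K K →+* K) = ⊥ := by
      rw [eq_bot_iff, Ideal.mul_le]
      intro x hx y hy
      have hx' : x.fst = 0 := hx
      have hy' : y.fst = 0 := hy
      rw [Ideal.mem_bot]
      apply TrivSqZeroExt.ext
      · simp [hx']
      · simp [hx', hy']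
    refine ⟨1 + 1, ?_⟩
    rw [Submodule.pow_succ, Submodule.pow_one]
    exact h4
  let Φ : K →ₐ[B] TrivSqZeroExt K K :=
    Algebra.FormallySmooth.liftOfSurjective (AlgHom.id B K) g hsurj hnil
  have hfst : ∀ x, (Φ x).fst = x := by
    intro x
    have := Algebra.FormallySmooth.liftOfSurjective_apply (AlgHom.id B K) g hsurj hnil x
    exact this
  have hcomm : ∀ b : B, Φ (algebraMap B K b) = φ b := fun b => Φ.commutes b
  have hsnd : ∀ b : B, (Φ (algebraMap B K b)).snd = algebraMap B K (d b) := by
    intro b
    rw [hcomm]
    exact snd_dualHom (algebraMap B K) (fun b => algebraMap B K (d b)) hadd hmul b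
  obtain ⟨e, he⟩ := exists_of_dual (Φ : K →+* TrivSqZeroExt K K) (fun x => hfst x) (by
    intro c
    have h4 : algebraMap ℂ K c = algebraMap B K (algebraMap ℂ B c) := rfl
    rw [h4]
    change (Φ (algebraMap B K (algebraMap ℂ B c))).snd = 0
    rw [hsnd, d.map_algebraMap, map_zero])
  refine ⟨e, fun b => ?_⟩
  rw [he]
  exact hsnd b

end Pool.Agent.Y151.IL
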